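import Pool.Agent.H73.CTG.Stmts

/-!
# Row GPR of the board `ctg`: from the gauge to `G`
-/

set_option autoImplicit false

open Set Filter Topology

namespace Pool.CTG

theorem gpr_one {n d : ℕ} (f : E n → E n) (H : E n → ℝ) (hd : 2 ≤ d)
    (hom : ∀ (c : ℂ) (z : E n), f (c • z) = c ^ d • f z)
    (hH : ∀ (c : ℂ) (z : E n), H (c • z) = ‖c‖ ^ 2 * H z)
    (hm : MapsTo f {z | H z < 1} {z | H z < 1})
    (hp : ∀ K : Set (E n), K ⊆ {z | H z < 1} → IsCompact K → IsCompact ({z | H z < 1} ∩ f ⁻¹' K))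
    (hpos : ∀ z : E n, z ≠ 0 → 0 < H z) (z : E n) (hz : H z = 1) : H (f z) = 1 := by
  have hH0 : H 0 = 0 := by
    have := hH 0 0
    simpa using this
  have hnn : 0 ≤ H (f z) := by
    by_cases h : f z = 0
    · rw [h, hH0]
    · exact (hpos _ h).le
  have hreal : ∀ (t : ℝ) (w : E n), H ((t : ℂ) • w) = t ^ 2 * H w := by
    intro t w
    rw [hH, Complex.norm_real, Real.norm_eq_abs, sq_abs]
  refine le_antisymm ?_ ?_
  · -- at most one
    have h1 : Tendsto (fun t : ℝ => (t ^ d) ^ 2 * H (f z)) (𝓝[<] 1) (𝓝 (((1 : ℝ) ^ d) ^ 2 * H (f z))) := by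
      have hc : Continuous (fun t : ℝ => (t ^ d) ^ 2 * H (f z)) := by fun_prop
      exact (hc.tendsto 1).mono_left nhdsWithin_le_nhds
    have h2 : ∀ᶠ t : ℝ in 𝓝[<] 1, (t ^ d) ^ 2 * H (f z) ≤ 1 := by
      have h3 : Ioo (0 : ℝ) 1 ∈ 𝓝[<] (1 : ℝ) := Ioo_mem_nhdsLT (by norm_num)
      filter_upwards [h3] with t ht
      have h4 : (t : ℂ) • z ∈ {z | H z < 1} := by
        show H ((t : ℂ) • z) < 1
        rw [hreal, hz, mul_one]
        nlinarith [ht.1, ht.2]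
      have h5 : H (f ((t : ℂ) • z)) < 1 := hm h4
      rw [hom, ← Complex.ofReal_pow, hreal] at h5
      exact h5.le
    have h3 := le_of_tendsto h1 h2
    simpa using h3
  · by_contra hcon
    rw [not_le] at hcon
    have hK : IsCompact ((fun s : ℝ => (s : ℂ) • f z) '' Icc (0 : ℝ) 1) := by
      refine isCompact_Icc.image ?_
      exact (Complex.continuous_ofReal).smul continuous_const
    have hKD : ((fun s : ℝ => (s : ℂ) • f z) '' Icc (0 : ℝ) 1) ⊆ {z | H z < 1} := by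
      rintro _ ⟨s, hs, rfl⟩
      show H ((s : ℂ) • f z) < 1
      rw [hreal]
      have h1 : s ^ 2 ≤ 1 := by nlinarith [hs.1, hs.2]
      nlinarith
    have hc := (hp _ hKD hK).isClosed
    have h1 : Tendsto (fun t : ℝ => (t : ℂ) • z) (𝓝[<] 1) (𝓝 (((1 : ℝ) : ℂ) • z)) := by
      have hc : Continuous (fun t : ℝ => (t : ℂ) • z) :=
        (Complex.continuous_ofReal).smul continuous_const
      exact (hc.tendsto 1).mono_left nhdsWithin_le_nhds
    have h2 : ∀ᶠ t : ℝ in 𝓝[<] 1, (t : ℂ) • z ∈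
        {z | H z < 1} ∩ f ⁻¹' ((fun s : ℝ => (s : ℂ) • f z) '' Icc (0 : ℝ) 1) := by
      have h3 : Ioo (0 : ℝ) 1 ∈ 𝓝[<] (1 : ℝ) := Ioo_mem_nhdsLT (by norm_num)
      filter_upwards [h3] with t ht
      refine ⟨?_, t ^ d, ⟨pow_nonneg ht.1.le _, pow_le_one₀ ht.1.le ht.2.le⟩, ?_⟩
      · show H ((t : ℂ) • z) < 1
        rw [hreal, hz, mul_one]
        nlinarith [ht.1, ht.2]
      · show ((t ^ d : ℝ) : ℂ) • f z = f ((t : ℂ) • z)
        rw [hom, Complex.ofReal_pow]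
    have h3 := hc.mem_of_tendsto h1 h2
    have h4 : H (((1 : ℝ) : ℂ) • z) < 1 := h3.1
    rw [hreal, hz] at h4
    norm_num at h4

theorem gpr_pow {n d : ℕ} (f : E n → E n) (H : E n → ℝ) (hd : 2 ≤ d)
    (hom : ∀ (c : ℂ) (z : E n), f (c • z) = c ^ d • f z)
    (hH : ∀ (c : ℂ) (z : E n), H (c • z) = ‖c‖ ^ 2 * H z)
    (hm : MapsTo f {z | H z < 1} {z | H z < 1})
    (hp : ∀ K : Set (E n), K ⊆ {z | H z < 1} → IsCompact K → IsCompact ({z | H z < 1} ∩ f ⁻¹' K))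
    (hpos : ∀ z : E n, z ≠ 0 → 0 < H z) (z : E n) (hz : z ≠ 0) : H (f z) = H z ^ d := by
  have hh := hpos z hz
  have hsq : 0 < √(H z) := Real.sqrt_pos.2 hh
  have hreal : ∀ (t : ℝ) (w : E n), H ((t : ℂ) • w) = t ^ 2 * H w := by
    intro t w
    rw [hH, Complex.norm_real, Real.norm_eq_abs, sq_abs]
  have h1 : H ((((√(H z))⁻¹ : ℝ) : ℂ) • z) = 1 := by
    rw [hreal, inv_pow, Real.sq_sqrt hh.le, inv_mul_cancel₀ hh.ne']
  have h2 := gpr_one f H hd hom hH hm hp hpos _ h1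
  rw [hom, ← Complex.ofReal_pow, hreal, ← pow_mul, mul_comm d 2, pow_mul, inv_pow,
    Real.sq_sqrt hh.le, inv_pow] at h2
  have h3 : (H z ^ d) ≠ 0 := pow_ne_zero _ hh.ne'
  field_simp at h2
  exact h2

theorem GPR_thm : GPRStmt := by
  intro n d f H hn hd cd hom g2 hpos hH hm hp
  have hH0 : H 0 = 0 := by
    have := hH 0 0
    simpa using this
  have hpw := gpr_pow f H hd hom hH hm hp hpos
  refine ⟨hn, hd, cd, hom, ?_, ?_, ?_, ?_⟩
  · intro z hz h0
    have h1 := hpw z hz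
    rw [h0, hH0] at h1
    exact (pow_pos (hpos z hz) d).ne h1
  · exact g2.log fun z hz => (hpos z hz).ne'
  · intro c z hc hz
    have hcn : ‖c‖ ≠ 0 := norm_ne_zero_iff.2 hc
    show Real.log (H (c • z)) = Real.log (H z) + 2 * Real.log ‖c‖
    rw [hH, Real.log_mul (pow_ne_zero 2 hcn) (hpos z hz).ne', Real.log_pow]
    push_cast
    ring
  · intro z hz
    show Real.log (H (f z)) = d * Real.log (H z)
    rw [hpw z hz, Real.log_pow]

end Pool.CTG
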