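import Pool.Agent.H73.CTG.Stmts

/-!
# Row UOP of the board `ctg`: `U` is an open cone
-/

set_option autoImplicit false

open Set Filter Topology

namespace Pool.CTG

theorem uop_ortho {n : ℕ} (z v : E n) (hz : z ≠ 0) :
    (inner ℂ z (v + (-(inner ℂ z v / inner ℂ z z : ℂ)) • z) : ℂ) = 0 := by
  have h : (inner ℂ z z : ℂ) ≠ 0 := inner_self_ne_zero.2 hz
  rw [inner_add_right, inner_smul_right]
  field_simp
  ring

theorem UOP_thm (h1 : LVHStmt) (h2 : LVPStmt) : UOPStmt := by
  intro n f d G hf
  obtain ⟨hA, -, hC, -, hE⟩ := h1 n f d G hf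
  have hP := h2 n f d G hf
  constructor
  · rw [isOpen_iff_mem_nhds]
    rintro z₀ ⟨hz₀, hU⟩
    have key : ∀ᶠ z in 𝓝 z₀, ∀ w ∈ Metric.sphere (0 : E n) 1,
        ((inner ℂ z w : ℂ) ≠ 0 ∨ 0 < L G z w) := by
      refine (isCompact_sphere (0 : E n) 1).eventually_forall_of_forall_eventually ?_
      intro w hw
      by_cases hi : (inner ℂ z₀ w : ℂ) = 0
      · have hL : 0 < L G z₀ w := by
          apply hU
          rintro ⟨c, hc⟩
          have h3 : (inner ℂ w w : ℂ) = 0 := by
            conv_lhs => rw [hc]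
            rw [inner_smul_left, ← hc, hi, mul_zero]
          have h4 : w = 0 := inner_self_eq_zero.1 h3
          rw [h4] at hw
          simp at hw
        have hopen : IsOpen {p : E n × E n | p.1 ≠ 0} := isOpen_ne_fun continuous_fst continuous_const
        have hc : ContinuousAt (fun p : E n × E n => L G p.1 p.2) (z₀, w) :=
          hE.continuousAt (hopen.mem_nhds hz₀)
        have h5 := hc.eventually (lt_mem_nhds hL)
        filter_upwards [h5] with p hp
        exact Or.inr hp
      · have hc : ContinuousAt (fun p : E n × E n => (inner ℂ p.1 p.2 : ℂ)) (z₀, w) :=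
          (continuous_fst.inner continuous_snd).continuousAt
        have h5 := hc.eventually_ne hi
        filter_upwards [h5] with p hp
        exact Or.inl hp
    have hne : ∀ᶠ z in 𝓝 z₀, z ≠ 0 := eventually_ne_nhds hz₀
    filter_upwards [key, hne] with z hz hz0
    refine ⟨hz0, ?_⟩
    intro v hv
    obtain ⟨c, hc⟩ : ∃ c : ℂ, c = -(inner ℂ z v / inner ℂ z z : ℂ) := ⟨_, rfl⟩
    obtain ⟨w, hw⟩ : ∃ w : E n, w = v + c • z := ⟨_, rfl⟩
    have hwz : (inner ℂ z w : ℂ) = 0 := by
      rw [hw, hc]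
      exact uop_ortho z v hz0
    have hw0 : w ≠ 0 := by
      intro h
      apply hv
      refine ⟨-c, ?_⟩
      rw [hw] at h
      rw [neg_smul]
      exact eq_neg_of_add_eq_zero_left h
    have hnw : ‖w‖ ≠ 0 := norm_ne_zero_iff.2 hw0
    obtain ⟨r, hr⟩ : ∃ r : ℂ, r = ((‖w‖⁻¹ : ℝ) : ℂ) := ⟨_, rfl⟩
    have hrn : ‖r‖ = ‖w‖⁻¹ := by
      rw [hr, Complex.norm_real, Real.norm_eq_abs, abs_of_nonneg (by positivity)]
    have hmem : r • w ∈ Metric.sphere (0 : E n) 1 := by
      rw [mem_sphere_zero_iff_norm, norm_smul, hrn]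
      exact inv_mul_cancel₀ hnw
    rcases hz _ hmem with h | h
    · exfalso
      apply h
      rw [inner_smul_right, hwz, mul_zero]
    · rw [hC r z w hz0] at h
      have h6 : 0 < L G z w := by
        by_contra hcon
        rw [not_lt] at hcon
        have h7 := mul_nonpos_of_nonneg_of_nonpos (by positivity : (0 : ℝ) ≤ ‖r‖ ^ 2) hcon
        linarith
      rw [hw, (hP z v hz0).2 c] at h6
      exact h6
  · intro c z hc
    constructor
    · rintro ⟨h0, hL⟩
      have hz : z ≠ 0 := by
        rintro rfl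
        exact h0 (smul_zero c)
      refine ⟨hz, fun v hv => ?_⟩
      rw [← (hA c z v hc hz).1]
      apply hL
      rintro ⟨a, ha⟩
      apply hv
      refine ⟨a, ?_⟩
      rw [smul_comm a c z] at ha
      exact smul_right_injective (E n) hc ha
    · rintro ⟨hz, hL⟩
      refine ⟨smul_ne_zero hc hz, fun v hv => ?_⟩
      have h3 : v = c • (c⁻¹ • v) := by rw [smul_smul, mul_inv_cancel₀ hc, one_smul]
      rw [h3, (hA c z _ hc hz).1]
      apply hL
      rintro ⟨a, ha⟩
      apply hv
      refine ⟨a, ?_⟩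
      rw [h3, ha, smul_comm]

end Pool.CTG
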